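import Mathlib

namespace Pool.Agent.Results.MP_0af3ab_al.LeftNotRight

/-- The nucleus (associative center) of a unital, not necessarily associative ring. -/
def nucleus (R : Type) [NonAssocRing R] : Set R :=
  {x | ∀ a b : R, (x * a) * b - x * (a * b) = 0 ∧ (a * x) * b - a * (x * b) = 0 ∧
    (a * b) * x - a * (b * x) = 0}

/-- `N(R) r ∩ N(R) ≠ 0` for every nonzero `r`. -/
def LeftNEssential (R : Type) [NonAssocRing R] : Prop :=
  ∀ r : R, r ≠ 0 → ∃ x ∈ nucleus R, x * r ∈ nucleus R ∧ x * r ≠ 0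

/-- `r N(R) ∩ N(R) ≠ 0` for every nonzero `r`. -/
def RightNEssential (R : Type) [NonAssocRing R] : Prop :=
  ∀ r : R, r ≠ 0 → ∃ x ∈ nucleus R, r * x ∈ nucleus R ∧ r * x ≠ 0

/-- Coordinates with respect to the basis `1, r, a, b`. -/
def Ex : Type := Fin 4 → ℤ

instance : AddCommGroup Ex := inferInstanceAs (AddCommGroup (Fin 4 → ℤ))

/-- The product with `r * r = a`, `a * r = b` and all other products of `r, a, b` zero. -/
def mulEx (x y : Fin 4 → ℤ) : Fin 4 → ℤ :=
  ![x 0 * y 0, x 0 * y 1 + x 1 * y 0, x 0 * y 2 + x 2 * y 0 + x 1 * y 1,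
    x 0 * y 3 + x 3 * y 0 + x 2 * y 1]

instance : NonAssocRing Ex :=
  { (inferInstance : AddCommGroup Ex) with
    mul := mulEx
    one := (![1, 0, 0, 0] : Fin 4 → ℤ)
    left_distrib := fun (x y z : Fin 4 → ℤ) => show mulEx x (y + z) = mulEx x y + mulEx x z by
      ext i; fin_cases i <;> simp [mulEx] <;> ring
    right_distrib := fun (x y z : Fin 4 → ℤ) => show mulEx (x + y) z = mulEx x z + mulEx y z by
      ext i; fin_cases i <;> simp [mulEx] <;> ring
    zero_mul := fun (x : Fin 4 → ℤ) => show mulEx 0 x = 0 by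
      ext i; fin_cases i <;> simp [mulEx]
    mul_zero := fun (x : Fin 4 → ℤ) => show mulEx x 0 = 0 by
      ext i; fin_cases i <;> simp [mulEx]
    one_mul := fun (x : Fin 4 → ℤ) => show mulEx ![1, 0, 0, 0] x = x by
      ext i; fin_cases i <;> simp [mulEx]
    mul_one := fun (x : Fin 4 → ℤ) => show mulEx x ![1, 0, 0, 0] = x by
      ext i; fin_cases i <;> simp [mulEx] }

lemma mem_nucleus (x : Fin 4 → ℤ) : (show Ex from x) ∈ nucleus Ex ↔ x 1 = 0 := by
  constructor
  · intro h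
    have h1 : mulEx (mulEx x ![0, 1, 0, 0]) ![0, 1, 0, 0] - mulEx x (mulEx ![0, 1, 0, 0] ![0, 1, 0, 0]) = 0 :=
      (h (![0, 1, 0, 0] : Fin 4 → ℤ) (![0, 1, 0, 0] : Fin 4 → ℤ)).1
    simpa [mulEx] using congrFun h1 3
  · intro h (a : Fin 4 → ℤ) (b : Fin 4 → ℤ)
    refine ⟨?_, ?_, ?_⟩
    · show mulEx (mulEx x a) b - mulEx x (mulEx a b) = 0
      ext i; fin_cases i <;> simp [mulEx, h] <;> ring
    · show mulEx (mulEx a x) b - mulEx a (mulEx x b) = 0
      ext i; fin_cases i <;> simp [mulEx, h] <;> ring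
    · show mulEx (mulEx a b) x - mulEx a (mulEx b x) = 0
      ext i; fin_cases i <;> simp [mulEx, h] <;> ring

theorem result : ∃ (R : Type) (_ : NonAssocRing R), LeftNEssential R ∧ ¬ RightNEssential R := by
  refine ⟨Ex, inferInstance, ?_, ?_⟩
  · intro (y : Fin 4 → ℤ) hy
    by_cases h : y 1 = 0
    · refine ⟨1, (mem_nucleus ![1, 0, 0, 0]).2 rfl, ?_, ?_⟩
      · rw [one_mul]; exact (mem_nucleus y).2 h
      · rw [one_mul]; exact hy
    · refine ⟨(![0, 0, 1, 0] : Fin 4 → ℤ), (mem_nucleus _).2 rfl, ?_, ?_⟩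
      · exact (mem_nucleus (mulEx ![0, 0, 1, 0] y)).2 (by simp [mulEx])
      · intro h0
        have h1 : mulEx ![0, 0, 1, 0] y = 0 := h0
        exact h (by simpa [mulEx] using congrFun h1 3)
  · intro h
    obtain ⟨x, hx, h1, h2⟩ := h (![0, 1, 0, 0] : Fin 4 → ℤ) (fun h0 => by
      have h1 : (![0, 1, 0, 0] : Fin 4 → ℤ) = 0 := h0
      simpa using congrFun h1 1)
    have hx' := (mem_nucleus x).1 hx
    have h1' := (mem_nucleus (mulEx ![0, 1, 0, 0] x)).1 h1
    apply h2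
    show mulEx ![0, 1, 0, 0] x = 0
    have h0 : x 0 = 0 := by simpa [mulEx] using h1'
    ext i; fin_cases i <;> simp [mulEx, hx', h0]

end Pool.Agent.Results.MP_0af3ab_al.LeftNotRight
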